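import Pool.Agent.H.MP_8ee885_co.C

set_option autoImplicit false

namespace Pool.Agent.Results.MP_8ee885_co.Rank

abbrev V (r : ℕ) := Fin r → ZMod 2

/-- A list of nonzero vectors spanning the space, with multiplicities of gcd one. -/
def Gen {r : ℕ} (M : List (V r)) : Prop :=
  (0 : V r) ∉ M ∧ Submodule.span (ZMod 2) {v | v ∈ M} = ⊤ ∧
    Finset.univ.gcd (fun v : V r => M.count v) = 1

/-- Laplacian of the Cayley multigraph. -/
def lap {r : ℕ} (M : List (V r)) : Matrix (V r) (V r) ℤ := fun u w =>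
  if u = w then (M.length : ℤ) else -((M.countP fun v => u + v = w : ℕ) : ℤ)

/-- Cokernel of an integer matrix. -/
def Coker {ι : Type} [Fintype ι] (L : Matrix ι ι ℤ) : Type :=
  (ι → ℤ) ⧸ LinearMap.range L.mulVecLin

instance {ι : Type} [Fintype ι] (L : Matrix ι ι ℤ) : AddCommGroup (Coker L) :=
  Submodule.Quotient.addCommGroup _

/-- The sandpile group: torsion subgroup of the cokernel of the Laplacian. -/
def K {r : ℕ} (M : List (V r)) : AddSubgroup (Coker (lap M)) := AddCommGroup.torsion _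

/-- Dimension of `G / 2G` over the field with two elements. -/
noncomputable def rank2 (G : Type) [AddCommGroup G] : ℕ := Module.finrank (ZMod 2) (ModN G 2)

noncomputable def d {r : ℕ} (M : List (V r)) : ℕ := rank2 (K M)

/-- Every nonzero vector has odd multiplicity. -/
def AllOdd {r : ℕ} (M : List (V r)) : Prop := ∀ u, u ≠ 0 → Odd (M.count u)

/-- The eigenvalue indexed by `u`. -/
def eig {r : ℕ} (M : List (V r)) (u : V r) : ℤ :=
  (M.length : ℤ) - (M.map fun v => (-1 : ℤ) ^ (u ⬝ᵥ v).val).sum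

/-- All eigenvalues with nonzero index have the same 2-adic valuation. -/
def SameVal {r : ℕ} (M : List (V r)) : Prop :=
  ∀ u u' : V r, u ≠ 0 → u' ≠ 0 → padicValInt 2 (eig M u) = padicValInt 2 (eig M u')

open Pool.Agent.H.MP_8ee885_co

theorem sum_count {r : ℕ} (M : List (V r)) (f : V r → ℤ) :
    (M.map f).sum = ∑ v, (M.count v : ℤ) * f v := by
  induction M with
  | nil => simp
  | cons a M ih =>
    simp only [List.map_cons, List.sum_cons, ih, List.count_cons, beq_iff_eq, Nat.cast_add,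
      Nat.cast_ite, add_mul, Finset.sum_add_distrib, ite_mul]
    simp [add_comm]

theorem len_eq {r : ℕ} (M : List (V r)) : (M.length : ℤ) = ∑ v, (M.count v : ℤ) := by
  simpa using sum_count M (fun _ => 1)

theorem lap_eq {r : ℕ} (M : List (V r)) : lap M = H.MP_8ee885_co.lp (fun v => M.count v) := by
  ext u w
  simp only [lap, H.MP_8ee885_co.lp, len_eq, Nat.cast_sum, List.count_eq_countP]
  congr 3
  refine List.countP_congr fun v _ => ?_
  simp only [decide_eq_true_eq, beq_iff_eq]
  constructor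
  · rintro rfl; exact (aa u v).symm
  · rintro rfl; exact aa u w

theorem eig_eq {r : ℕ} (M : List (V r)) (u : V r) : eig M u = ev (fun v => M.count v) u := by
  simp only [eig, ev, len_eq, sum_count, chi, mul_sub, mul_one, Finset.sum_sub_distrib]

theorem main {r : ℕ} (hr : 1 ≤ r) (M : List (V r)) (h : Gen M) :
    ((∀ u, u ≠ 0 → Odd (M.count u)) → d M + 2 = 2 ^ r) ∧
    ((¬ ∀ u, u ≠ 0 → Odd (M.count u)) → Odd (d M)) ∧
    (SameVal M → ∀ u, u ≠ 0 → Odd (M.count u)) := by
  obtain ⟨h0, hs, hg⟩ := h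
  have h0' : M.count 0 = 0 := List.count_eq_zero.2 h0
  have hs' : Submodule.span (ZMod 2) {v | M.count v ≠ 0} = ⊤ := by
    rw [← hs]; congr 1; ext v; simp [List.count_eq_zero]
  have hc := lp_col (fun v => M.count v) h0'
  have hk := lp_ker (fun v => M.count v) h0' hs'
  rw [← lap_eq] at hc hk
  have e : d M + Module.finrank (ZMod 2) (LinearMap.range
      ((lap M).map (Int.cast : ℤ → ZMod 2)).mulVecLin) + 1 = Fintype.card (V r) :=
    dimK (lap M) hc (tor_of _ hc hk)
  rw [lap_eq, Fintype.card_fun, ZMod.card, Fintype.card_fin] at e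
  refine ⟨fun h => ?_, fun h => ?_, fun h => ?_⟩
  · rw [rank_all hr _ h0' h] at e; omega
  · obtain ⟨c, hc⟩ := rank_even (fun v => M.count v) h
    obtain ⟨k, rfl⟩ := Nat.exists_eq_add_of_le' hr
    rw [hc, pow_succ] at e
    exact ⟨2 ^ k - c - 1, by omega⟩
  · exact all_odd hr _ h0' hs' hg fun u u' hu hu' => by
      rw [← eig_eq, ← eig_eq]; exact h u u' hu hu'

def M0 : List (V 2) := [![1,0], ![0,1], ![1,1], ![1,1], ![1,1]]

theorem result :
    (∃ (r : ℕ) (M : List (V r)), 1 ≤ r ∧ Gen M ∧ ¬ SameVal M ∧ Even (d M)) ∧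
    ∀ (r : ℕ) (M : List (V r)), 1 ≤ r → Gen M →
      (AllOdd M → d M + 2 = 2 ^ r) ∧
      (¬ AllOdd M → Odd (d M)) ∧
      (SameVal M → d M + 2 = 2 ^ r) := by
  refine ⟨?_, fun r M hr h => ⟨(main hr M h).1, (main hr M h).2.1,
    fun e => (main hr M h).1 ((main hr M h).2.2 e)⟩⟩
  have hG : Gen M0 := by
    refine ⟨by decide +kernel, ?_, by decide +kernel⟩
    have e : ∀ v : V 2, v = v 0 • ![1,0] + v 1 • ![0,1] := by decide +kernel
    refine Submodule.eq_top_iff'.2 fun v => ?_
    rw [e v]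
    exact add_mem (Submodule.smul_mem _ _ (Submodule.subset_span (by simp [M0])))
      (Submodule.smul_mem _ _ (Submodule.subset_span (by simp [M0])))
  refine ⟨2, M0, by norm_num, hG, fun h => ?_, ?_⟩
  · have := h ![1,0] ![1,1] (by decide +kernel) (by decide +kernel)
    rw [show eig M0 ![1,0] = ((2 ^ 3 : ℕ) : ℤ) by decide +kernel,
      show eig M0 ![1,1] = ((2 ^ 2 : ℕ) : ℤ) by decide +kernel,
      padicValInt.of_nat, padicValInt.of_nat, padicValNat.prime_pow, padicValNat.prime_pow] at this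
    omega
  · have := (main (by norm_num) M0 hG).1 (by decide +kernel)
    exact ⟨1, by omega⟩

end Pool.Agent.Results.MP_8ee885_co.Rank
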